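import Pool.Agent.Helper5.ST.GoalsA

/-!
Packet XI of MP_f1caa3_al: existence of the vector `ξ`.
-/

namespace Pool.Agent.Helper3.ST

open Pool.Agent.Helper5.ST Pool.Agent.Helper5.Gap Filter Topology
open scoped InnerProductSpace

universe u

theorem xi (HSeq : SSeq.{u}) (HLim : SLim.{u}) (HW : SWalkQ.{u}) : SXi.{u} := by
  intro G _ w V _ _ _ π δ hδ horth hinv hX ρ Λ hρ hΛ hgrow hΛρ hρΛ
  obtain ⟨ha, hb, hc, hd, he⟩ := HW G w V π
  have hd' := hd hX
  have he' := he δ hδ horth
  set Q := w.Q π with hQ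
  have hsa : ∀ v v', ⟪Q v, v'⟫_ℝ = ⟪v, Q v'⟫_ℝ := w.inner_Q π
  have hle : ∀ v, ⟪Q v, v⟫_ℝ ≤ ‖v‖ ^ 2 := by
    intro v
    calc ⟪Q v, v⟫_ℝ ≤ ‖Q v‖ * ‖v‖ := real_inner_le_norm _ _
      _ ≤ ‖v‖ * ‖v‖ := by gcongr; exact hc v
      _ = ‖v‖ ^ 2 := by ring
  have hker : ∀ v, Q v = v → v = 0 := fun v hv => hinv v (hd' v hv)
  set q : ℕ → ℝ := fun j => ⟪(Q ^ j) δ, δ⟫_ℝ with hq
  set r : ℕ → ℝ := fun j => q j - q (j + 1) with hr
  obtain ⟨r0, r1, r2⟩ := HSeq V Q hsa hb hle δ r (fun j => rfl)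
  have hlim : Tendsto q atTop (𝓝 0) := HLim V Q hsa hb hc hker δ
  -- moving powers
  have hmove : ∀ a j : ℕ, ⟪(Q ^ j) ((Q ^ a) δ), (Q ^ a) δ⟫_ℝ = q (2 * a + j) := by
    intro a j
    have h1 := w.inner_Q_pow π a ((Q ^ j) ((Q ^ a) δ)) δ
    rw [← h1]
    show ⟪(Q ^ a) ((Q ^ j) ((Q ^ a) δ)), δ⟫_ℝ = ⟪(Q ^ (2 * a + j)) δ, δ⟫_ℝ
    rw [← Module.End.mul_apply, ← Module.End.mul_apply, ← pow_add, ← pow_add]
    congr 3
    ring
  have hgpos : 0 < (growth w.X ρ : ℝ) := by
    have h1 := he' ρ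
    by_contra hcon
    push Not at hcon
    have h2 : (growth w.X ρ : ℝ) = 0 := le_antisymm hcon (Nat.cast_nonneg _)
    rw [h2, zero_mul] at h1
    linarith
  have hne : ∀ i : ℕ, (Q ^ i) δ ≠ 0 := by
    intro i h0
    have h1 := he' i
    have h2 : ⟪(Q ^ (2 * i)) δ, δ⟫_ℝ = 0 := by
      have := hmove i 0
      rw [h0] at this
      simp only [map_zero, inner_zero_left, add_zero] at this
      exact this.symm
    rw [h2, mul_zero] at h1
    linarith
  have hpos2 : ∀ i : ℕ, 0 < r (2 * i) := by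
    intro i
    set x := (Q ^ i) δ with hx
    have h1 : r (2 * i) = ‖x‖ ^ 2 - ⟪Q x, x⟫_ℝ := by
      have e0 := hmove i 0
      have e1 := hmove i 1
      rw [pow_zero, Module.End.one_apply, real_inner_self_eq_norm_sq, add_zero] at e0
      rw [pow_one] at e1
      rw [hr]
      show q (2 * i) - q (2 * i + 1) = _
      rw [← e0, ← e1]
    rcases (r0 (2 * i)).lt_or_eq with h | h
    · exact h
    · exfalso
      have h2 := ha x
      rw [← h1, ← h, mul_zero] at h2
      have h3 := (Finset.sum_eq_zero_iff_of_nonneg (fun i _ =>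
        mul_nonneg (w.p_nonneg i) (sq_nonneg _))).1 h2
      have h4 : ∀ i, π (w.s i) x = x := by
        intro i
        have := h3 i (Finset.mem_univ i)
        rcases mul_eq_zero.1 this with h5 | h5
        · exact absurd h5 (w.p_pos i).ne'
        · have h6 := pow_eq_zero_iff (two_ne_zero) |>.1 h5
          exact sub_eq_zero.1 (norm_eq_zero.1 h6)
      have h5 : Q x = x := by
        rw [hQ, w.Q_apply]
        simp only [h4]
        rw [← Finset.sum_smul, w.p_sum, one_smul]
      exact hne i (hker x h5)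
  have hanti : ∀ a n, r (a + n) ≤ r a := by
    intro a n
    induction n with
    | zero => exact le_rfl
    | succ n ih => exact (r1 (a + n)).trans ih
  have hpos : ∀ j, 0 < r j := by
    intro j
    have h1 := hpos2 j
    have h2 := hanti j j
    have h3 : j + j = 2 * j := by ring
    rw [h3] at h2
    linarith
  -- the constant
  have hρ0 : (0 : ℝ) < ρ := by
    have : (1 : ℝ) ≤ ρ := by exact_mod_cast hρ
    linarith
  set τ : ℝ := Λ / ρ with hτ
  have hτ0 : 0 < τ := by rw [hτ]; positivity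
  have hτ1 : τ < 1 := by rw [hτ, div_lt_one hρ0]; exact hΛρ
  have hτρ : τ * ρ = Λ := by rw [hτ]; field_simp
  have claim : ∃ j, (1 - τ) * r j ≤ r (j + 1) := by
    by_contra hcon
    push Not at hcon
    have hr00 : r 0 ≤ 1 := by
      have h1 : q 0 = 1 := by
        show ⟪(Q ^ 0) δ, δ⟫_ℝ = 1
        rw [pow_zero, Module.End.one_apply, real_inner_self_eq_norm_sq, hδ]
        norm_num
      have h2 : 0 ≤ q 1 := by
        show 0 ≤ ⟪(Q ^ 1) δ, δ⟫_ℝ
        rw [pow_one]; exact hb δ
      show q 0 - q (0 + 1) ≤ 1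
      rw [h1, zero_add]
      linarith
    have hrj : ∀ j, r j ≤ (1 - τ) ^ j := by
      intro j
      induction j with
      | zero => simpa using hr00
      | succ j ih =>
        rw [pow_succ']
        exact (hcon j).le.trans (mul_le_mul_of_nonneg_left ih (by linarith))
    have hsum : ∀ m n, q m - q (m + n) ≤ (1 - τ) ^ m / τ := by
      intro m n
      have h1 : q m - q (m + n) = ∑ j ∈ Finset.range n, r (m + j) := by
        induction n with
        | zero => simp
        | succ n ih =>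
          rw [Finset.sum_range_succ, ← ih]
          show q m - q (m + n + 1) = q m - q (m + n) + (q (m + n) - q (m + n + 1))
          ring
      rw [h1]
      have h2 : ∑ j ∈ Finset.range n, r (m + j) ≤ ∑ j ∈ Finset.range n, (1 - τ) ^ (m + j) :=
        Finset.sum_le_sum fun j _ => hrj (m + j)
      have h3 : ∑ j ∈ Finset.range n, (1 - τ) ^ (m + j) =
          (1 - τ) ^ m * ∑ j ∈ Finset.range n, (1 - τ) ^ j := by
        rw [Finset.mul_sum]
        exact Finset.sum_congr rfl fun j _ => pow_add _ _ _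
      have h4 : (∑ j ∈ Finset.range n, (1 - τ) ^ j) * τ = 1 - (1 - τ) ^ n := by
        have := geom_sum_mul (1 - τ) n
        linarith
      have h5 : ∑ j ∈ Finset.range n, (1 - τ) ^ j ≤ 1 / τ := by
        rw [le_div_iff₀ hτ0, h4]
        have : 0 ≤ (1 - τ) ^ n := pow_nonneg (by linarith) n
        linarith
      calc ∑ j ∈ Finset.range n, r (m + j) ≤ (1 - τ) ^ m * ∑ j ∈ Finset.range n, (1 - τ) ^ j := by
            rw [← h3]; exact h2
        _ ≤ (1 - τ) ^ m * (1 / τ) := by
            apply mul_le_mul_of_nonneg_left h5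
            exact pow_nonneg (by linarith) m
        _ = (1 - τ) ^ m / τ := by ring
    have hq2 : q (2 * ρ) ≤ (1 - τ) ^ (2 * ρ) / τ := by
      have h1 : Tendsto (fun n => q (2 * ρ) - q (2 * ρ + n)) atTop (𝓝 (q (2 * ρ) - 0)) := by
        apply Tendsto.const_sub
        have := hlim.comp (tendsto_add_atTop_nat (2 * ρ))
        refine this.congr fun n => ?_
        show q (n + 2 * ρ) = _
        rw [add_comm]
      rw [sub_zero] at h1
      exact le_of_tendsto' h1 (hsum (2 * ρ))
    have h1 : (1 - τ) ^ (2 * ρ) ≤ Real.exp (-(2 * Λ)) := by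
      have h2 : 1 - τ ≤ Real.exp (-τ) := by
        have := Real.add_one_le_exp (-τ)
        linarith
      calc (1 - τ) ^ (2 * ρ) ≤ (Real.exp (-τ)) ^ (2 * ρ) :=
            pow_le_pow_left₀ (by linarith) h2 _
        _ = Real.exp (-(2 * Λ)) := by
            rw [← Real.exp_nat_mul]
            congr 1
            push_cast
            rw [← hτρ]
            ring
    have h2 : Real.exp (-Λ) ≤ q (2 * ρ) := by
      have h3 := he' ρ
      have h4 : (growth w.X ρ : ℝ) ≤ Real.exp Λ := by
        rw [← Real.log_le_iff_le_exp hgpos]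
        exact hgrow
      have h5 : 0 ≤ q (2 * ρ) := by
        by_contra hneg
        push Not at hneg
        have : (growth w.X ρ : ℝ) * q (2 * ρ) < 0 := mul_neg_of_pos_of_neg hgpos hneg
        have h6 : 1 ≤ (growth w.X ρ : ℝ) * q (2 * ρ) := h3
        linarith
      have h6 : 1 ≤ Real.exp Λ * q (2 * ρ) := by
        have h7 : 1 ≤ (growth w.X ρ : ℝ) * q (2 * ρ) := h3
        exact h7.trans (mul_le_mul_of_nonneg_right h4 h5)
      rw [Real.exp_neg, inv_le_iff_one_le_mul₀ (Real.exp_pos Λ), mul_comm]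
      exact h6
    have h3 : Real.exp (-Λ) ≤ Real.exp (-(2 * Λ)) / τ :=
      h2.trans (hq2.trans (div_le_div_of_nonneg_right h1 hτ0.le))
    rw [le_div_iff₀ hτ0] at h3
    have h4 : Real.exp (-(2 * Λ)) = Real.exp (-Λ) * Real.exp (-Λ) := by
      rw [← Real.exp_add]; congr 1; ring
    rw [h4] at h3
    have h5 : τ ≤ Real.exp (-Λ) := le_of_mul_le_mul_left h3 (Real.exp_pos _)
    have h6 : τ * Real.exp Λ ≤ 1 := by
      calc τ * Real.exp Λ ≤ Real.exp (-Λ) * Real.exp Λ :=
            mul_le_mul_of_nonneg_right h5 (Real.exp_pos _).le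
        _ = 1 := by rw [← Real.exp_add]; simp
    have h7 : Λ * Real.exp Λ ≤ ρ := by
      calc Λ * Real.exp Λ = (τ * Real.exp Λ) * ρ := by rw [← hτρ]; ring
        _ ≤ 1 * ρ := mul_le_mul_of_nonneg_right h6 hρ0.le
        _ = ρ := one_mul _
    linarith
  obtain ⟨a, hclaim⟩ := claim
  have hslow : ∀ n, (1 - τ) * r (a + n) ≤ r (a + n + 1) := by
    intro n
    induction n with
    | zero => exact hclaim
    | succ n ih =>
      have h1 := r2 (a + n)
      have h2 := hpos (a + n)
      have h3 := hpos (a + n + 1)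
      have h4 : r (a + n) * ((1 - τ) * r (a + n + 1)) ≤ r (a + n) * r (a + n + 2) := by
        refine le_trans ?_ h1
        nlinarith
      exact le_of_mul_le_mul_left h4 h2
  -- the vector
  have hra : 0 < r (2 * a) := hpos _
  set s : ℝ := (√(2 * r (2 * a)))⁻¹ with hs
  have hs2 : s * s = (2 * r (2 * a))⁻¹ := by
    rw [hs, ← mul_inv, Real.mul_self_sqrt (by positivity)]
  set ξ : V := s • (Q ^ a) δ with hξ
  have hmean : ∀ j, w.mean j (fun g => ⟪π g ξ, ξ⟫_ℝ) = (2 * r (2 * a))⁻¹ * q (2 * a + j) := by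
    intro j
    rw [w.mean_inner_left, w.mean_rep]
    rw [← hQ, hξ, map_smul, inner_smul_left, inner_smul_right, hmove, ← hs2]
    simp only [conj_trivial]
    ring
  have htt : ∀ j, w.tt π ξ j = r (2 * a + j) / r (2 * a) := by
    intro j
    unfold Walk.tt
    rw [hmean, hmean]
    show 2 * (_ - (2 * r (2 * a))⁻¹ * q (2 * a + j + 1)) = (q (2 * a + j) - q (2 * a + j + 1)) / _
    field_simp
  refine ⟨ξ, ⟨?_, ?_, ?_⟩⟩
  · rw [htt, add_zero, div_self hra.ne']
  · intro j
    rw [htt, htt]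
    exact div_le_div_of_nonneg_right (r1 (2 * a + j)) hra.le
  · intro j
    rw [htt, htt, ← mul_div_assoc]
    apply div_le_div_of_nonneg_right _ hra.le
    have := hslow (a + j)
    have e : a + (a + j) = 2 * a + j := by ring
    rw [e] at this
    exact this

end Pool.Agent.Helper3.ST
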